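import Pool.Agent.helper70.BND.SpecH

set_option autoImplicit false

open scoped Topology
open Finset

namespace Pool.Agent.BND.EX

theorem EMC_fl (h : ℕ → ℕ) : ∀ (w : List ℕ) (i : ℕ), i < (w.map h).sum → (fl h w i).1 ∈ w ∧ (fl h w i).2 < h (fl h w i).1 := by
  intro w
  induction w with
  | nil => intro i hi; simp at hi
  | cons a w ih =>
    intro i hi
    rw [List.map_cons, List.sum_cons] at hi
    unfold fl
    split_ifs with hlt
    · exact ⟨List.mem_cons_self, hlt⟩
    · obtain ⟨h1, h2⟩ := ih (i - h a) (by omega)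
      exact ⟨List.mem_cons_of_mem _ h1, h2⟩

theorem EMC_fw (l : Lv) : ∀ (u : List ℕ) (i : ℕ), (∀ v ∈ u, v < l.n) → i < (u.map l.h).sum →
    fw l.h (emb l) (vw u) i = Pi.single (fl l.h u i) 1 := by
  intro u
  induction u with
  | nil => intro i _ hi; simp at hi
  | cons a u ih =>
    intro i hu hi
    rw [List.map_cons, List.sum_cons] at hi
    rw [vw_cons]
    show (if i < l.h a then emb l a 0 i else fw l.h (emb l) (vw u) (i - l.h a)) =
      Pi.single (if i < l.h a then (a, i) else fl l.h u (i - l.h a)) 1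
    by_cases h1 : i < l.h a
    · rw [if_pos h1, if_pos h1]
      unfold emb
      rw [if_pos (hu a List.mem_cons_self)]
    · rw [if_neg h1, if_neg h1]
      exact ih (i - l.h a) (fun v hv => hu v (List.mem_cons_of_mem _ hv)) (by omega)

theorem EMC : EMC_stmt := by
  intro l hl
  refine ⟨fun e i _ _ => ?_, fun e s i he => ?_, fun e i he hi => ?_, fun e i he hi => ?_, ?_⟩
  · refine Continuous.continuousOn ?_
    by_cases h : e < l.n
    · have h1 : (fun s => emb l e s i) = fun _ => Pi.single (e, i) 1 := by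
        ext s
        unfold emb
        rw [if_pos h]
      rw [h1]
      exact continuous_const
    · have h1 : (fun s => emb l e s i) = fun s : ℝ => ((1 - s : ℝ) : ℂ) • (Pi.single (fl l.h (l.W e false) i) 1 : Am) +
          (s : ℂ) • (Pi.single (fl l.h (l.W e true) i) 1 : Am) +
          Pi.single (e, i) (((s * (1 - s) : ℝ) : ℂ) * (1 + (s : ℂ) * Complex.I)) := by
        ext s
        unfold emb
        rw [if_neg h]
      rw [h1]
      refine continuous_pi fun c => ?_
      simp only [Pi.add_apply, Pi.smul_apply, smul_eq_mul, Pi.single_apply]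
      split_ifs <;> fun_prop
  · unfold emb
    rw [if_pos he, if_pos he]
  · by_cases h : e < l.n
    · rw [hl.vtx e h, vw_cons, vw_nil]
      unfold fw
      rw [if_pos hi]
    · rw [EMC_fw l (l.W e false) i (hl.mem e he false) (by rw [hl.ht e he]; exact hi)]
      unfold emb
      rw [if_neg h]
      simp
  · by_cases h : e < l.n
    · rw [hl.vtx e h, vw_cons, vw_nil]
      unfold fw
      rw [if_pos hi]
      unfold emb
      rw [if_pos h, if_pos h]
    · rw [EMC_fw l (l.W e true) i (hl.mem e he true) (by rw [hl.ht e he]; exact hi)]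
      unfold emb
      rw [if_neg h]
      simp
  · refine ⟨range l.N ×ˢ range (∑ e ∈ range l.N, l.h e), fun e s i c he _ hi hc => ?_⟩
    have hle : ∀ v, v < l.N → l.h v ≤ ∑ e ∈ range l.N, l.h e := fun v hv =>
      Finset.single_le_sum (f := fun e => l.h e) (fun _ _ => Nat.zero_le _) (Finset.mem_range.2 hv)
    have h1 : c ≠ (e, i) := by
      rintro rfl
      exact hc (Finset.mem_product.2 ⟨Finset.mem_range.2 he, Finset.mem_range.2 (lt_of_lt_of_le hi (hle e he))⟩)
    have h2 : ∀ b, c ≠ fl l.h (l.W e b) i := by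
      intro b hb
      obtain ⟨h3, h4⟩ := EMC_fl l.h (l.W e b) i (by rw [hl.ht e he]; exact hi)
      have h5 : (fl l.h (l.W e b) i).1 < l.N := lt_of_lt_of_le (hl.mem e he b _ h3) hl.nN
      rw [hb] at hc
      exact hc (Finset.mem_product.2 ⟨Finset.mem_range.2 h5, Finset.mem_range.2 (lt_of_lt_of_le h4 (hle _ h5))⟩)
    unfold emb
    split_ifs with h
    · exact Pi.single_eq_of_ne h1 _
    · simp only [Pi.add_apply, Pi.smul_apply, smul_eq_mul]
      rw [Pi.single_eq_of_ne (h2 false), Pi.single_eq_of_ne (h2 true), Pi.single_eq_of_ne h1]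
      ring

end Pool.Agent.BND.EX
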