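import Pool.Agent.helper70.BND.SpecH

set_option autoImplicit false

open scoped Topology
open Finset

namespace Pool.Agent.BND.EX

theorem SWE_cnt {R : Type} [CommRing R] (n : ℕ) (z : ℕ → R) (u : List ℕ) (hu : ∀ v ∈ u, v < n) :
    ∑ v ∈ range n, (u.count v : R) * z v = (u.map z).sum := by
  induction u with
  | nil => simp
  | cons a u ih =>
    have h1 := ih fun v hv => hu v (List.mem_cons_of_mem _ hv)
    rw [List.map_cons, List.sum_cons, ← h1]
    have h2 : ∀ v ∈ range n, ((a :: u).count v : R) * z v = (if v = a then z v else 0) + (u.count v : R) * z v := by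
      intro v _
      rw [List.count_cons]
      by_cases h : v = a
      · subst h
        simp only [beq_self_eq_true, if_true]
        push_cast
        ring
      · have h3 : (a == v) = false := by
          rw [beq_eq_false_iff_ne]
          exact fun h4 => h h4.symm
        rw [h3, if_neg h]
        simp
    rw [Finset.sum_congr rfl h2, Finset.sum_add_distrib, Finset.sum_ite_eq' (range n) a,
      if_pos (Finset.mem_range.2 (hu a List.mem_cons_self))]

theorem SWE_cv (l : Lv) (a : ℕ × ℝ) (w : List (ℕ × ℝ)) (v : ℕ) : cv l (a :: w) v = (l.W a.1 false).count v + cv l w v := by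
  unfold cv
  rw [List.flatMap_cons, List.count_append]

theorem SWE : SWE_stmt := by
  intro l hl w hw'
  have hsum : ∀ (R : Type) [CommRing R] (z : ℕ → R), sw (fun e _ => ((l.W e false).map z).sum) w = ∑ v ∈ range l.n, (cv l w v : R) * z v := by
    intro R _ z
    induction w with
    | nil => simp [cv]
    | cons a w ih =>
      rw [sw_cons, ih fun b hb => hw' b (List.mem_cons_of_mem _ hb)]
      have h1 := SWE_cnt l.n z (l.W a.1 false) fun v hv => hl.mem a.1 (hw' a List.mem_cons_self).1 false v hv
      rw [← h1, ← Finset.sum_add_distrib]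
      refine Finset.sum_congr rfl fun v _ => ?_
      rw [SWE_cv]
      push_cast
      ring
  refine ⟨fun z => hsum ℤ z, ?_, fun ς hς => ?_⟩
  · have h1 := hsum ℤ (fun v => (l.h v : ℤ))
    have h2 : sw (fun e _ => ((l.W e false).map fun v => (l.h v : ℤ)).sum) w = (hw l.h w : ℤ) := by
      clear h1 hsum
      induction w with
      | nil => simp
      | cons a w ih =>
        rw [sw_cons, hw_cons, ih fun b hb => hw' b (List.mem_cons_of_mem _ hb)]
        have h3 := hl.ht a.1 (hw' a List.mem_cons_self).1 false
        have h4 : ((l.W a.1 false).map fun v => (l.h v : ℤ)).sum = (((l.W a.1 false).map l.h).sum : ℤ) := by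
          rw [Nat.cast_list_sum, List.map_map]
          rfl
        rw [h4, h3]
        push_cast
        ring
    rw [h2] at h1
    exact_mod_cast h1
  · clear hsum
    have h0U : (0 : ℝ) ∈ U := ⟨le_refl _, zero_le_one⟩
    induction w with
    | nil => simp [cv, nvh]
    | cons a w ih =>
      have h1 := ih fun b hb => hw' b (List.mem_cons_of_mem _ hb)
      obtain ⟨ha, hs⟩ := hw' a List.mem_cons_self
      have hm : ∀ v ∈ l.W a.1 false, v < l.n := fun v hv => hl.mem a.1 ha false v hv
      have h2 := SWE_cnt l.n (fun v => ς v 0) (l.W a.1 false) hm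
      have h3 : ∑ v ∈ range l.n, (cv l (a :: w) v : ℝ) * ς v 0 =
          ((l.W a.1 false).map fun v => ς v 0).sum + ∑ v ∈ range l.n, (cv l w v : ℝ) * ς v 0 := by
        rw [← h2, ← Finset.sum_add_distrib]
        refine Finset.sum_congr rfl fun v _ => ?_
        rw [SWE_cv]
        push_cast
        ring
      have h4 : |ς a.1 a.2 - ((l.W a.1 false).map fun v => ς v 0).sum| ≤
          2 * ((if a.1 < l.n ∧ a.2 = 0 then 0 else l.h a.1 : ℕ) : ℝ) := by
        split_ifs with h5
        · rw [hl.vtx a.1 h5.1, h5.2]
          simp
        · have h6 : |((l.W a.1 false).map fun v => ς v 0).sum| ≤ l.h a.1 := by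
            have h7 : ∀ u : List ℕ, (∀ v ∈ u, v < l.n) → |(u.map fun v => ς v 0).sum| ≤ ((u.map l.h).sum : ℕ) := by
              intro u
              induction u with
              | nil => intro _; simp
              | cons b u ihu =>
                intro hu
                rw [List.map_cons, List.sum_cons, List.map_cons, List.sum_cons]
                push_cast
                have h8 := hς b 0 (lt_of_lt_of_le (hu b List.mem_cons_self) hl.nN) h0U
                have h9 := ihu fun v hv => hu v (List.mem_cons_of_mem _ hv)
                exact le_trans (abs_add_le _ _) (add_le_add h8 (by exact_mod_cast h9))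
            have h8 := h7 _ hm
            rwa [hl.ht a.1 ha false] at h8
          have h7 := hς a.1 a.2 ha hs
          calc |ς a.1 a.2 - ((l.W a.1 false).map fun v => ς v 0).sum| ≤ |ς a.1 a.2| + |((l.W a.1 false).map fun v => ς v 0).sum| :=
                abs_sub _ _
            _ ≤ 2 * (l.h a.1 : ℝ) := by linarith
      have h5 : (nvh l (a :: w) : ℝ) = ((if a.1 < l.n ∧ a.2 = 0 then 0 else l.h a.1 : ℕ) : ℝ) + (nvh l w : ℝ) := by
        unfold nvh
        rw [List.map_cons, List.sum_cons]
        push_cast
        congr 1
      rw [sw_cons, h3, h5]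
      have h6 : ς a.1 a.2 + sw ς w - (((l.W a.1 false).map fun v => ς v 0).sum + ∑ v ∈ range l.n, (cv l w v : ℝ) * ς v 0) =
          (ς a.1 a.2 - ((l.W a.1 false).map fun v => ς v 0).sum) + (sw ς w - ∑ v ∈ range l.n, (cv l w v : ℝ) * ς v 0) := by ring
      rw [h6]
      refine le_trans (abs_add_le _ _) ?_
      rw [mul_add]
      exact add_le_add h4 h1

end Pool.Agent.BND.EX
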